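import Pool.Agent.V11176.QIneq

/-!
# Weighted hook-length-two bias for bounded odd and distinct partitions
-/

namespace Pool.Agent.Results.MP_d17fc5_co.HookBias

open Finset

/-! ### Definitions -/

/-- The parts `λ_1 ≥ λ_2 ≥ …` of a partition, in decreasing order. -/
noncomputable def lst {n : ℕ} (lam : n.Partition) : List ℕ := lam.parts.sort (· ≥ ·)

/-- The part `λ_i`, `i ≥ 1` (it is `0` if `i` is larger than the number of parts). -/
noncomputable def part {n : ℕ} (lam : n.Partition) (i : ℕ) : ℕ := (lst lam).getD (i - 1) 0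

/-- The part `λ'_j` of the conjugate partition, `j ≥ 1`: the number of parts `≥ j`. -/
def cpart {n : ℕ} (lam : n.Partition) (j : ℕ) : ℕ := lam.parts.countP (j ≤ ·)

/-- The hook length `h(i,j) = λ_i + λ'_j - i - j + 1`. -/
noncomputable def hook {n : ℕ} (lam : n.Partition) (i j : ℕ) : ℤ :=
  (part lam i : ℤ) + cpart lam j - i - j + 1

/-- The number of cells `(i,j)` (`i, j ≥ 1` and `j ≤ λ_i`) of hook length `2`. -/
noncomputable def h2 {n : ℕ} (lam : n.Partition) : ℕ :=
  #{c ∈ range (n + 1) ×ˢ range (n + 1) |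
    1 ≤ c.1 ∧ 1 ≤ c.2 ∧ c.2 ≤ part lam c.1 ∧ hook lam c.1 c.2 = 2}

/-- `a_2(L,m,n)`: the number of partitions of `n` into odd parts, with largest part at most
`2L - 1` and exactly `m` cells of hook length `2`. -/
noncomputable def a2 (L m n : ℕ) : ℕ :=
  #{lam : n.Partition | (∀ x ∈ lam.parts, Odd x ∧ x ≤ 2 * L - 1) ∧ h2 lam = m}

/-- `b_2(L,m,n)`: the number of partitions of `n` into distinct parts, with largest part at most
`L` and exactly `m` cells of hook length `2`. -/
noncomputable def b2 (L m n : ℕ) : ℕ :=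
  #{lam : n.Partition | (lam.parts.Nodup ∧ ∀ x ∈ lam.parts, x ≤ L) ∧ h2 lam = m}

/-- `A_L(n) = ∑_{m ≥ 0} binom(m,2) a_2(L,m,n)`. -/
noncomputable def A (L n : ℕ) : ℕ := ∑ᶠ m : ℕ, m.choose 2 * a2 L m n

/-- `B_L(n) = ∑_{m ≥ 0} binom(m,2) b_2(L,m,n)`. -/
noncomputable def B (L n : ℕ) : ℕ := ∑ᶠ m : ℕ, m.choose 2 * b2 L m n

/-! ### Sums over partitions -/

theorem finsum_eq {n : ℕ} (P : n.Partition → Prop) [DecidablePred P] :
    ∑ᶠ m : ℕ, m.choose 2 * #{lam : n.Partition | P lam ∧ h2 lam = m} =
      ∑ lam : n.Partition with P lam, (h2 lam).choose 2 := by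
  have hsupp : (Function.support fun m : ℕ => m.choose 2 * #{lam : n.Partition | P lam ∧ h2 lam = m}) ⊆
      ((univ : Finset n.Partition).image h2 : Set ℕ) := by
    intro m hm
    rw [Function.mem_support] at hm
    have h1 : #{lam : n.Partition | P lam ∧ h2 lam = m} ≠ 0 := fun h => hm (by rw [h, mul_zero])
    rw [card_ne_zero] at h1
    obtain ⟨lam, hlam⟩ := h1
    rw [mem_filter] at hlam
    simp only [coe_image, coe_univ, Set.image_univ, Set.mem_range]
    exact ⟨lam, hlam.2.2⟩
  rw [finsum_eq_sum_of_support_subset _ hsupp]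
  rw [← sum_fiberwise_of_maps_to (s := univ.filter P) (t := univ.image h2) (g := h2)
    (fun lam _ => mem_image_of_mem _ (mem_univ _))]
  apply sum_congr rfl
  intro m _
  rw [mul_comm, ← smul_eq_mul, ← sum_const]
  symm
  rw [filter_filter]
  apply sum_congr rfl
  intro lam hlam
  rw [mem_filter] at hlam
  rw [hlam.2.2]

/-! ### Parts and conjugate parts -/

theorem getD_countP (l : List ℕ) (hl : l.Pairwise (· ≥ ·)) (v : ℕ) (hv : 1 ≤ v) (i : ℕ) :
    v ≤ l.getD i 0 ↔ i < l.countP (v ≤ ·) := by
  induction l generalizing i with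
  | nil => simp; omega
  | cons a t ih =>
    obtain ⟨h1, h2⟩ := List.pairwise_cons.1 hl
    by_cases hva : v ≤ a
    · rw [List.countP_cons_of_pos (by simpa using hva)]
      cases i with
      | zero => simp [hva]
      | succ i =>
        rw [List.getD_cons_succ, ih h2 i]
        omega
    · have h3 : (a :: t).countP (fun x => decide (v ≤ x)) = 0 := by
        rw [List.countP_eq_zero]
        intro x hx
        simp only [decide_eq_true_eq]
        rcases List.mem_cons.1 hx with rfl | hx
        · exact hva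
        · have := h1 x hx
          omega
      rw [h3]
      simp only [not_lt_zero, iff_false, not_le]
      by_cases hi : i < (a :: t).length
      · rw [List.getD_eq_getElem _ _ hi]
        have h4 := List.getElem_mem hi
        rcases List.mem_cons.1 h4 with h5 | h5
        · omega
        · have := h1 _ h5
          omega
      · rw [List.getD_eq_default _ _ (by omega)]
        omega

theorem le_part_iff {n : ℕ} (lam : n.Partition) (v i : ℕ) (hv : 1 ≤ v) (hi : 1 ≤ i) :
    v ≤ part lam i ↔ i ≤ cpart lam v := by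
  have hp : (lst lam).Pairwise (· ≥ ·) := Multiset.pairwise_sort _ _
  unfold part cpart
  rw [getD_countP _ hp v hv]
  have h : (lst lam).countP (v ≤ ·) = lam.parts.countP (v ≤ ·) := by
    have := Multiset.sort_eq lam.parts (· ≥ ·)
    conv_rhs => rw [← this]
    rw [Multiset.coe_countP]
    rfl
  rw [h]
  omega

theorem countP_succ (s : Multiset ℕ) (v : ℕ) :
    s.countP (v ≤ ·) = s.countP (v + 1 ≤ ·) + s.count v := by
  induction s using Multiset.induction_on with
  | empty => simp
  | cons a s ih =>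
    rw [Multiset.countP_cons, Multiset.countP_cons, Multiset.count_cons, ih]
    split_ifs <;> omega

theorem cpart_succ {n : ℕ} (lam : n.Partition) (v : ℕ) :
    cpart lam v = cpart lam (v + 1) + lam.parts.count v := countP_succ _ _

theorem cpart_le {n : ℕ} (lam : n.Partition) (v : ℕ) : cpart lam v ≤ n := by
  unfold cpart
  refine (Multiset.countP_le_card _ _).trans ?_
  have h : ∀ s : Multiset ℕ, (∀ x ∈ s, 0 < x) → Multiset.card s ≤ s.sum := by
    intro s
    induction s using Multiset.induction_on with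
    | empty => simp
    | cons a s ih =>
      intro hs
      rw [Multiset.card_cons, Multiset.sum_cons]
      have h1 := ih fun x hx => hs x (Multiset.mem_cons_of_mem hx)
      have h2 := hs a (Multiset.mem_cons_self a s)
      omega
  have := h lam.parts fun x hx => lam.parts_pos hx
  rwa [lam.parts_sum] at this

/-! ### Odd partitions: a lower bound for the number of hooks -/

theorem part_cpart {n : ℕ} (lam : n.Partition) (v : ℕ) (hv : v ∈ lam.parts) :
    part lam (cpart lam v) = v := by
  have hv1 : 1 ≤ v := lam.parts_pos hv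
  have hc : 1 ≤ lam.parts.count v := Multiset.one_le_count_iff_mem.2 hv
  have h1 := cpart_succ lam v
  have h2 := (le_part_iff lam v (cpart lam v) hv1 (by omega)).2 le_rfl
  have h3 : ¬ v + 1 ≤ part lam (cpart lam v) := by
    rw [le_part_iff lam (v + 1) _ (by omega) (by omega)]
    omega
  omega

theorem h2_odd {n : ℕ} (lam : n.Partition) (hodd : ∀ x ∈ lam.parts, Odd x) :
    #(lam.parts.toFinset.filter (3 ≤ ·)) + (if 2 ≤ lam.parts.count 1 then 1 else 0) ≤ h2 lam := by
  have hinj : #((lam.parts.toFinset.filter (3 ≤ ·)).image fun v => (cpart lam v, v - 1)) =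
      #(lam.parts.toFinset.filter (3 ≤ ·)) := by
    apply card_image_of_injOn
    intro v hv v' hv' h
    simp only [coe_filter, Multiset.mem_toFinset, Set.mem_ofPred_eq] at hv hv'
    simp only [Prod.mk.injEq] at h
    omega
  have hsub1 : ((lam.parts.toFinset.filter (3 ≤ ·)).image fun v => (cpart lam v, v - 1)) ⊆
      {c ∈ range (n + 1) ×ˢ range (n + 1) |
        1 ≤ c.1 ∧ 1 ≤ c.2 ∧ c.2 ≤ part lam c.1 ∧ hook lam c.1 c.2 = 2} := by
    intro c hc
    rw [mem_image] at hc
    obtain ⟨v, hv, rfl⟩ := hc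
    rw [mem_filter, Multiset.mem_toFinset] at hv
    have hvn : v ≤ n := Nat.Partition.le_of_mem_parts hv.1
    have hc : 1 ≤ lam.parts.count v := Multiset.one_le_count_iff_mem.2 hv.1
    have h1 := cpart_succ lam v
    have h2 := cpart_succ lam (v - 1)
    rw [show v - 1 + 1 = v by omega] at h2
    have h3 : lam.parts.count (v - 1) = 0 := by
      rw [Multiset.count_eq_zero]
      intro h
      have a1 := hodd _ h
      have a2 := hodd _ hv.1
      rw [Nat.odd_iff] at a1 a2
      omega
    have h4 := part_cpart lam v hv.1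
    have h5 := cpart_le lam v
    simp only [mem_filter, mem_product, mem_range, hook, h4]
    refine ⟨⟨by omega, by omega⟩, by omega, by omega, by omega, ?_⟩
    rw [h2, h3, Nat.cast_sub (by omega)]
    push_cast
    ring
  unfold h2
  by_cases h : 2 ≤ lam.parts.count 1
  · rw [if_pos h]
    have hmem : 1 ∈ lam.parts := by
      rw [← Multiset.one_le_count_iff_mem]; omega
    have h1 : cpart lam 1 = cpart lam 2 + lam.parts.count 1 := cpart_succ lam 1
    have h5 := cpart_le lam 1
    have hp1 : part lam (cpart lam 1 - 1) = 1 := by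
      have a1 := (le_part_iff lam 1 (cpart lam 1 - 1) le_rfl (by omega)).2 (by omega)
      have a2 : ¬ 2 ≤ part lam (cpart lam 1 - 1) := by
        rw [le_part_iff lam 2 _ (by omega) (by omega)]
        omega
      omega
    have hn1 : 1 ≤ n := Nat.Partition.le_of_mem_parts hmem
    have hnot : (cpart lam 1 - 1, 1) ∉
        ((lam.parts.toFinset.filter (3 ≤ ·)).image fun v => (cpart lam v, v - 1)) := by
      intro hc
      rw [mem_image] at hc
      obtain ⟨v, hv, hv2⟩ := hc
      rw [mem_filter] at hv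
      simp only [Prod.mk.injEq] at hv2
      omega
    rw [← hinj, ← card_insert_of_notMem hnot]
    apply card_le_card
    intro c hc
    rcases mem_insert.1 hc with rfl | hc
    · simp only [mem_filter, mem_product, mem_range, hook, hp1]
      refine ⟨⟨by omega, by omega⟩, by omega, by omega, by omega, ?_⟩
      rw [Nat.cast_sub (by omega)]
      push_cast
      ring
    · exact hsub1 hc
  · rw [if_neg h, add_zero, ← hinj]
    exact card_le_card hsub1

/-! ### Distinct partitions: an upper bound for the number of hooks -/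

/-- the number of `a ∈ T`, `a ≥ 2`, with `a - 1 ∉ T` -/
def sT (T : Finset ℕ) : ℕ := #{a ∈ T | 2 ≤ a ∧ a - 1 ∉ T}

theorem h2_distinct {n : ℕ} (lam : n.Partition) (hd : lam.parts.Nodup) :
    h2 lam ≤ sT lam.parts.toFinset := by
  unfold h2 sT
  have hcount : ∀ v, lam.parts.count v ≤ 1 := Multiset.nodup_iff_count_le_one.1 hd
  have key : ∀ i j : ℕ, 1 ≤ i → 1 ≤ j → j ≤ part lam i → hook lam i j = 2 →
      part lam i = j + 1 ∧ cpart lam j = i := by
    intro i j hi hj hle hh
    have h1 := (le_part_iff lam j i hj hi).1 hle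
    unfold hook at hh
    by_cases hp : part lam i = j
    · exfalso
      have h3 : ¬ j + 1 ≤ part lam i := by omega
      rw [le_part_iff lam (j + 1) i (by omega) hi] at h3
      have h4 := cpart_succ lam j
      have h5 := hcount j
      omega
    · omega
  apply card_le_card_of_injOn (fun c => c.2 + 1)
  · intro c hc
    simp only [coe_filter, mem_product, mem_range, Set.mem_ofPred_eq] at hc
    obtain ⟨-, h1, h2, h3, h4⟩ := hc
    obtain ⟨k1, k2⟩ := key _ _ h1 h2 h3 h4
    have e1 := cpart_succ lam c.2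
    have e2 := cpart_succ lam (c.2 + 1)
    have e3 := (le_part_iff lam (c.2 + 1) c.1 (by omega) h1).1 (by omega)
    have e4 : ¬ c.2 + 1 + 1 ≤ part lam c.1 := by omega
    rw [le_part_iff lam _ _ (by omega) h1] at e4
    simp only [coe_filter, Multiset.mem_toFinset, Set.mem_ofPred_eq]
    refine ⟨?_, by omega, ?_⟩
    · rw [← Multiset.one_le_count_iff_mem]
      omega
    · rw [show c.2 + 1 - 1 = c.2 by omega, ← Multiset.count_eq_zero]
      omega
  · intro c hc c' hc' h
    simp only [coe_filter, mem_product, mem_range, Set.mem_ofPred_eq] at hc hc'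
    obtain ⟨-, h1, h2, h3, h4⟩ := hc
    obtain ⟨-, h1', h2', h3', h4'⟩ := hc'
    obtain ⟨k1, k2⟩ := key _ _ h1 h2 h3 h4
    obtain ⟨k1', k2'⟩ := key _ _ h1' h2' h3' h4'
    have h5 : c.2 = c'.2 := by simpa using h
    rw [h5] at k2
    exact Prod.ext (k2.symm.trans k2') h5


/-! ### The generating function of distinct partitions -/

open PowerSeries Pool.Agent.V11176.QIneq

/-- `∑_{T ⊆ [L]} f(sT T) q^{∑ T}` -/
noncomputable def W (L : ℕ) (f : ℕ → ℚ) : ℚ⟦X⟧ :=
  ∑ T ∈ (Icc 1 L).powerset, C (f (sT T)) * X ^ (∑ a ∈ T, a)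

theorem sT_insert (L : ℕ) (hL : 1 ≤ L) (T : Finset ℕ) (hT : T ⊆ Icc 1 L) :
    sT (insert (L + 1) T) = sT T + if L ∈ T then 0 else 1 := by
  have hnot : L + 1 ∉ T := fun h => by
    have := hT h
    rw [mem_Icc] at this
    omega
  have h1 : (insert (L + 1) T).filter (fun a => 2 ≤ a ∧ a - 1 ∉ insert (L + 1) T) =
      if L ∈ T then T.filter (fun a => 2 ≤ a ∧ a - 1 ∉ T)
      else insert (L + 1) (T.filter (fun a => 2 ≤ a ∧ a - 1 ∉ T)) := by
    ext a
    by_cases hLT : L ∈ T
    · rw [if_pos hLT]
      simp only [mem_filter, mem_insert]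
      constructor
      · rintro ⟨h1 | h1, h2, h3⟩
        · exfalso
          apply h3
          right
          rw [h1]
          exact hLT
        · exact ⟨h1, h2, fun h => h3 (Or.inr h)⟩
      · rintro ⟨h1, h2, h3⟩
        refine ⟨Or.inr h1, h2, ?_⟩
        rintro (h | h)
        · have := hT h1
          rw [mem_Icc] at this
          omega
        · exact h3 h
    · rw [if_neg hLT]
      simp only [mem_filter, mem_insert]
      constructor
      · rintro ⟨h1 | h1, h2, h3⟩
        · exact Or.inl h1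
        · exact Or.inr ⟨h1, h2, fun h => h3 (Or.inr h)⟩
      · rintro (h1 | ⟨h1, h2, h3⟩)
        · refine ⟨Or.inl h1, by omega, ?_⟩
          rw [h1]
          rintro (h | h)
          · omega
          · exact hLT h
        · refine ⟨Or.inr h1, h2, ?_⟩
          rintro (h | h)
          · have := hT h1
            rw [mem_Icc] at this
            omega
          · exact h3 h
  unfold sT
  rw [h1]
  split_ifs with h
  · rfl
  · rw [card_insert_of_notMem]
    intro h2
    exact hnot (mem_filter.1 h2).1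

theorem Icc_succ (L : ℕ) : Icc 1 (L + 1) = insert (L + 1) (Icc 1 L) := by
  ext a
  simp only [mem_Icc, mem_insert]
  omega

theorem W_rec (L : ℕ) (f : ℕ → ℚ) :
    W (L + 2) f = W (L + 1) f * (1 + X ^ (L + 2)) +
      X ^ (L + 2) * W L (fun k => f (k + 1) - f k) := by
  have h1 : W (L + 2) f = W (L + 1) f + ∑ T ∈ (Icc 1 (L + 1)).powerset,
      C (f (sT (insert (L + 2) T))) * X ^ (L + 2 + ∑ a ∈ T, a) := by
    unfold W
    rw [Icc_succ (L + 1), sum_powerset_insert (by simp)]
    congr 1
    apply sum_congr rfl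
    intro T hT
    rw [mem_powerset] at hT
    rw [sum_insert]
    intro h
    have := hT h
    rw [mem_Icc] at this
    omega
  have h2 : ∑ T ∈ (Icc 1 (L + 1)).powerset,
      C (f (sT (insert (L + 2) T))) * X ^ (L + 2 + ∑ a ∈ T, a) =
      X ^ (L + 2) * W (L + 1) f + X ^ (L + 2) * ∑ T ∈ (Icc 1 (L + 1)).powerset,
        if L + 1 ∈ T then 0 else C (f (sT T + 1) - f (sT T)) * X ^ (∑ a ∈ T, a) := by
    unfold W
    rw [mul_sum, mul_sum, ← sum_add_distrib]
    apply sum_congr rfl
    intro T hT
    rw [mem_powerset] at hT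
    rw [sT_insert (L + 1) (by omega) T hT]
    split_ifs with h
    · rw [add_zero, pow_add]
      ring
    · rw [pow_add, map_sub]
      ring
  have h3 : (∑ T ∈ (Icc 1 (L + 1)).powerset,
        if L + 1 ∈ T then (0 : ℚ⟦X⟧) else C (f (sT T + 1) - f (sT T)) * X ^ (∑ a ∈ T, a)) =
      W L (fun k => f (k + 1) - f k) := by
    unfold W
    rw [Icc_succ L, sum_powerset_insert (by simp)]
    have z : (∑ T ∈ (Icc 1 L).powerset, if L + 1 ∈ insert (L + 1) T then (0 : ℚ⟦X⟧) else
        C (f (sT (insert (L + 1) T) + 1) - f (sT (insert (L + 1) T))) *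
          X ^ (∑ a ∈ insert (L + 1) T, a)) = 0 := by
      apply sum_eq_zero
      intro T _
      rw [if_pos (mem_insert_self _ _)]
    rw [z, add_zero]
    apply sum_congr rfl
    intro T hT
    rw [mem_powerset] at hT
    rw [if_neg]
    intro h
    have := hT h
    rw [mem_Icc] at this
    omega
  rw [h1, h2, h3]
  ring


theorem W_zero (f : ℕ → ℚ) : W 0 f = C (f 0) := by
  simp [W, sT]

theorem W_one (f : ℕ → ℚ) : W 1 f = C (f 0) * (1 + X) := by
  unfold W
  rw [show Icc 1 1 = {1} by rfl, show ({1} : Finset ℕ).powerset = {∅, {1}} by rfl,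
    sum_insert (by decide), sum_singleton]
  have e1 : sT ∅ = 0 := by decide
  have e2 : sT {1} = 0 := by decide
  rw [e1, e2]
  simp
  ring

theorem W_const (L : ℕ) (c : ℚ) : W L (fun _ => c) = C c * ∏ i ∈ Icc 1 L, (1 + X ^ i) := by
  induction L using Nat.strong_induction_on with
  | _ L ih =>
    match L with
    | 0 => rw [W_zero]; simp
    | 1 => rw [W_one]; simp
    | L + 2 =>
      rw [W_rec, ih (L + 1) (by omega), Icc_succ (L + 1), prod_insert (by simp)]
      have e : W L (fun _ => c - c) = 0 := by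
        unfold W
        simp
      rw [e]
      ring

/-- `∏_{i=2}^m (1 + q^i)` -/
noncomputable def D2 (m : ℕ) : ℚ⟦X⟧ := ∏ i ∈ Ico 2 (m + 1), (1 + X ^ i)

theorem D2_succ (m : ℕ) (hm : 1 ≤ m) : D2 (m + 1) = D2 m * (1 + X ^ (m + 1)) := by
  unfold D2
  rw [prod_Ico_succ_top (by omega)]

theorem prod_Icc_eq (m : ℕ) (hm : 1 ≤ m) : ∏ i ∈ Icc 1 m, (1 + (X : ℚ⟦X⟧) ^ i) = (1 + X) * D2 m := by
  induction m, hm using Nat.le_induction with
  | base => simp [D2]
  | succ m hm ih => rw [Icc_succ, prod_insert (by simp), ih, D2_succ m hm]; ring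

theorem D2_eq (m : ℕ) (hm : 2 ≤ m) : D2 m = (1 + X ^ 2) * D m := by
  unfold D2 D
  rw [← prod_Ico_consecutive _ (by norm_num : 2 ≤ 3) (by omega : 3 ≤ m + 1)]
  congr 1
  simp

/-- The weighted count with weight `sT`. -/
theorem W_id (L : ℕ) (hL : 1 ≤ L) : W L (fun k => (k : ℚ)) =
    X ^ 2 * ((1 - X ^ (L - 1)) * u 1) * D2 (L - 1) := by
  induction L, hL using Nat.le_induction with
  | base => rw [W_one]; simp
  | succ L hL ih =>
    obtain ⟨t, rfl⟩ : ∃ t, L = t + 1 := ⟨L - 1, by omega⟩
    rw [W_rec, ih]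
    have e : W t (fun k => ((k + 1 : ℕ) : ℚ) - (k : ℚ)) = ∏ i ∈ Icc 1 t, (1 + X ^ i) := by
      have : (fun k : ℕ => ((k + 1 : ℕ) : ℚ) - (k : ℚ)) = fun _ => 1 := by
        funext k; push_cast; ring
      rw [this, W_const]
      simp
    rw [e]
    have hu := u_mul 1 le_rfl
    rw [pow_one] at hu
    rcases Nat.eq_zero_or_pos t with h | h
    · subst h
      have d1 : D2 1 = 1 := by simp [D2]
      have e0 : ∏ i ∈ Icc 1 0, (1 + (X : ℚ⟦X⟧) ^ i) = 1 := by simp
      have e1 : (0 + 1 - 1 : ℕ) = 0 := rfl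
      have e2 : (0 + 1 + 1 - 1 : ℕ) = 1 := rfl
      rw [e0, e1, e2, d1, pow_zero, sub_self, zero_mul, mul_zero, zero_mul, zero_mul, zero_add,
        pow_one, hu]
      ring
    · rw [prod_Icc_eq t h, show t + 1 - 1 = t by omega, show t + 1 + 1 - 1 = t + 1 by omega,
        D2_succ t h]
      linear_combination (-(X ^ (t + 2) * (1 + X) * D2 t)) * hu

/-- The weighted count with weight `binom (sT) 2`. -/
theorem W_choose (L : ℕ) (hL : 4 ≤ L) : W L (fun k => (k.choose 2 : ℚ)) =
    X ^ 6 * G 1 (L - 2) * D (L - 2) := by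
  have hd : ∀ t, W t (fun k => ((k + 1).choose 2 : ℚ) - (k.choose 2 : ℚ)) = W t (fun k => (k : ℚ)) := by
    intro t
    congr 1
    funext k
    rw [Nat.choose_succ_succ' k 1]
    simp
  have w2 : W 2 (fun k => (k.choose 2 : ℚ)) = 0 := by
    rw [W_rec, W_one, hd, W_zero]
    simp
  have w3 : W 3 (fun k => (k.choose 2 : ℚ)) = 0 := by
    rw [W_rec, w2, hd, W_one]
    simp
  have hu := u_mul 1 le_rfl
  have hu2 := u_mul 2 (by norm_num)
  rw [pow_one] at hu
  induction L, hL using Nat.le_induction with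
  | base =>
    rw [W_rec, w3, hd, W_id 2 (by norm_num)]
    simp only [G, D, D2]
    norm_num
    linear_combination (X ^ 6 * (1 - X) * u 1 * (1 : ℚ⟦X⟧)) * (-hu2)
  | succ L hL ih =>
    obtain ⟨t, rfl⟩ : ∃ t, L = t + 3 := ⟨L - 3, by omega⟩
    rw [show t + 3 + 1 = t + 2 + 2 by ring, W_rec, show t + 2 + 1 = t + 3 by ring, ih, hd,
      W_id (t + 2) (by omega), show t + 2 - 1 = t + 1 by omega, show t + 3 - 2 = t + 1 by omega,
      show t + 2 + 2 - 2 = t + 2 by omega, D2_eq (t + 1) (by omega)]
    have hD : D (t + 2) = D (t + 1) * (1 + X ^ (t + 2)) := D_succ (t + 1) (by omega)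
    rw [hD]
    simp only [G, one_mul, show t + 1 - 1 = t by omega, show t + 2 - 1 = t + 1 by omega]
    linear_combination (-(X ^ (t + 2 + 2) * X ^ 2 * (1 - X ^ (t + 1)) * u 1 * (1 + X ^ 2) * D (t + 1))) * hu2

/-! ### The generating function of `B_L` -/

theorem B_le (L n : ℕ) : (B L n : ℚ) ≤ coeff n (W L (fun k => (k.choose 2 : ℚ))) := by
  have h1 : B L n = ∑ lam : n.Partition with (lam.parts.Nodup ∧ ∀ x ∈ lam.parts, x ≤ L),
      (h2 lam).choose 2 := finsum_eq (fun lam : n.Partition => lam.parts.Nodup ∧ ∀ x ∈ lam.parts, x ≤ L)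
  have h3 : B L n ≤ ∑ T ∈ (Icc 1 L).powerset with ∑ a ∈ T, a = n, (sT T).choose 2 := by
    rw [h1]
    have h4 : ∑ lam : n.Partition with (lam.parts.Nodup ∧ ∀ x ∈ lam.parts, x ≤ L),
        (h2 lam).choose 2 ≤
        ∑ lam : n.Partition with (lam.parts.Nodup ∧ ∀ x ∈ lam.parts, x ≤ L),
        (sT lam.parts.toFinset).choose 2 := by
      apply sum_le_sum
      intro lam hlam
      rw [mem_filter] at hlam
      exact Nat.choose_le_choose 2 (h2_distinct lam hlam.2.1)
    refine h4.trans ?_
    have hinj : Set.InjOn (fun lam : n.Partition => lam.parts.toFinset)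
        (univ.filter fun lam : n.Partition => lam.parts.Nodup ∧ ∀ x ∈ lam.parts, x ≤ L) := by
      intro lam hlam mu hmu h
      simp only [coe_filter, mem_univ, true_and, Set.mem_ofPred_eq] at hlam hmu
      ext1
      have := congrArg Finset.val h
      simp only [Multiset.toFinset_val] at this
      rwa [Multiset.dedup_eq_self.2 hlam.1, Multiset.dedup_eq_self.2 hmu.1] at this
    rw [← sum_image (f := fun T => (sT T).choose 2) hinj]
    apply sum_le_sum_of_subset
    intro T hT
    rw [mem_image] at hT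
    obtain ⟨lam, hlam, rfl⟩ := hT
    rw [mem_filter] at hlam
    rw [mem_filter, mem_powerset]
    constructor
    · intro a ha
      rw [Multiset.mem_toFinset] at ha
      rw [mem_Icc]
      exact ⟨lam.parts_pos ha, hlam.2.2 a ha⟩
    · have e1 : ∑ a ∈ lam.parts.toFinset, a = (lam.parts.dedup.map id).sum := rfl
      rw [e1, Multiset.dedup_eq_self.2 hlam.2.1, Multiset.map_id, lam.parts_sum]
  have h5 : coeff n (W L (fun k => (k.choose 2 : ℚ))) =
      ((∑ T ∈ (Icc 1 L).powerset with ∑ a ∈ T, a = n, (sT T).choose 2 : ℕ) : ℚ) := by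
    unfold W
    rw [map_sum, sum_filter, Nat.cast_sum]
    apply sum_congr rfl
    intro T _
    rw [coeff_C_mul, coeff_X_pow]
    by_cases h : ∑ a ∈ T, a = n
    · rw [if_pos h, if_pos h.symm, mul_one]
    · rw [if_neg h, if_neg (fun h' => h h'.symm), mul_zero, Nat.cast_zero]
  rw [h5]
  exact_mod_cast h3

/-! ### The generating function of partitions into odd parts -/

/-- the number of partitions of `n` into odd parts `≤ 2L - 1` -/
noncomputable def pr (L n : ℕ) : ℕ :=
  #{lam : n.Partition | ∀ x ∈ lam.parts, Odd x ∧ x ≤ 2 * L - 1}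

theorem card_contain (L n : ℕ) (s : Multiset ℕ) (hs : ∀ x ∈ s, Odd x ∧ x ≤ 2 * L - 1) :
    #{lam : n.Partition | (∀ x ∈ lam.parts, Odd x ∧ x ≤ 2 * L - 1) ∧ s ≤ lam.parts} =
      if s.sum ≤ n then pr L (n - s.sum) else 0 := by
  split_ifs with h
  · unfold pr
    symm
    refine card_bij (fun mu _ => (⟨mu.parts + s, ?_, ?_⟩ : n.Partition)) ?_ ?_ ?_
    · intro x hx
      rcases Multiset.mem_add.1 hx with hx | hx
      · exact mu.parts_pos hx
      · exact (hs x hx).1.pos
    · rw [Multiset.sum_add, mu.parts_sum]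
      omega
    · intro mu hmu
      rw [mem_filter] at hmu ⊢
      refine ⟨mem_univ _, ?_, ?_⟩
      · intro x hx
        rcases Multiset.mem_add.1 hx with hx | hx
        · exact hmu.2 x hx
        · exact hs x hx
      · exact Multiset.le_add_left _ _
    · intro mu _ mu' _ h
      ext1
      have := congrArg Nat.Partition.parts h
      exact add_right_cancel this
    · intro lam hlam
      rw [mem_filter] at hlam
      refine ⟨⟨lam.parts - s, ?_, ?_⟩, ?_, ?_⟩
      · intro x hx
        exact lam.parts_pos (Multiset.mem_of_le (Multiset.sub_le_self _ _) hx)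
      · have h2 := congrArg Multiset.sum (tsub_add_cancel_of_le hlam.2.2)
        rw [Multiset.sum_add, lam.parts_sum] at h2
        omega
      · rw [mem_filter]
        refine ⟨mem_univ _, fun x hx => ?_⟩
        exact hlam.2.1 x (Multiset.mem_of_le (Multiset.sub_le_self _ _) hx)
      · ext1
        exact tsub_add_cancel_of_le hlam.2.2
  · rw [card_eq_zero, filter_eq_empty_iff]
    intro lam _ hlam
    apply h
    obtain ⟨t, ht⟩ := Multiset.le_iff_exists_add.1 hlam.2
    have h2 := lam.parts_sum
    rw [ht, Multiset.sum_add] at h2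
    omega

theorem pr_zero (n : ℕ) : pr 0 n = if n = 0 then 1 else 0 := by
  split_ifs with h
  · subst h
    unfold pr
    rw [card_eq_one]
    refine ⟨default, ?_⟩
    ext lam
    simp only [mem_filter, mem_univ, true_and, mem_singleton]
    constructor
    · intro _
      exact Subsingleton.elim _ _
    · rintro rfl x hx
      exfalso
      have h1 := Nat.Partition.le_of_mem_parts hx
      have h2 := (default : (0 : ℕ).Partition).parts_pos hx
      omega
  · unfold pr
    rw [card_eq_zero, filter_eq_empty_iff]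
    intro lam _ hlam
    apply h
    have h2 := lam.parts_sum
    have h3 : lam.parts = 0 := by
      rw [Multiset.eq_zero_iff_forall_notMem]
      intro x hx
      have h4 := hlam x hx
      have h5 := h4.1.pos
      omega
    rw [h3] at h2
    simpa using h2.symm

theorem pr_succ (L n : ℕ) : pr (L + 1) n = pr L n +
    if 2 * L + 1 ≤ n then pr (L + 1) (n - (2 * L + 1)) else 0 := by
  have h1 := card_contain (L + 1) n {2 * L + 1} (by
    intro x hx
    rw [Multiset.mem_singleton] at hx
    subst hx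
    exact ⟨⟨L, rfl⟩, by omega⟩)
  rw [Multiset.sum_singleton] at h1
  rw [← h1]
  unfold pr
  rw [← card_filter_add_card_filter_not (s := univ.filter fun lam : n.Partition =>
    ∀ x ∈ lam.parts, Odd x ∧ x ≤ 2 * (L + 1) - 1) (p := fun lam : n.Partition => ¬ {2 * L + 1} ≤ lam.parts)]
  congr 1
  · rw [filter_filter]
    congr 1
    ext lam
    simp only [mem_filter, mem_univ, true_and, Multiset.singleton_le]
    constructor
    · rintro ⟨h1, h2⟩ x hx
      have h3 := h1 x hx
      refine ⟨h3.1, ?_⟩
      have h4 : x ≠ 2 * L + 1 := fun h => h2 (h ▸ hx)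
      have h5 := Nat.odd_iff.1 h3.1
      omega
    · intro h
      refine ⟨fun x hx => ⟨(h x hx).1, by have := (h x hx).2; omega⟩, fun h2 => ?_⟩
      have := (h _ h2).2
      omega
  · rw [filter_filter]
    congr 1
    ext lam
    simp only [mem_filter, mem_univ, true_and, not_not]

theorem pr_eq (L n : ℕ) : (pr L n : ℚ) = coeff n (Q L) := by
  induction L generalizing n with
  | zero =>
    rw [pr_zero]
    unfold Q
    rw [range_zero, prod_empty, coeff_one]
    split_ifs <;> simp
  | succ L ih =>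
    induction n using Nat.strong_induction_on with
    | _ n ihn =>
      have h1 : Q (L + 1) = Q L * u (2 * L + 1) := by
        unfold Q
        rw [prod_range_succ]
      have h2 : Q (L + 1) = Q L + X ^ (2 * L + 1) * Q (L + 1) := by
        have h3 := u_mul (2 * L + 1) (by omega)
        rw [h1]
        linear_combination (Q L) * h3
      rw [pr_succ, h2, map_add, coeff_X_pow_mul', ← ih n]
      push_cast
      split_ifs with h
      · rw [ihn _ (by omega)]
      · rfl


theorem sum_pairs (m : ℕ) :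
    ∑ j ∈ range m, ∑ i ∈ range j, (X : ℚ⟦X⟧) ^ (2 * i + 2 * j) = X ^ 2 * G 2 m := by
  induction m with
  | zero => simp [G]
  | succ m ih =>
    rw [sum_range_succ, ih]
    have h1 : ∑ i ∈ range m, (X : ℚ⟦X⟧) ^ (2 * i + 2 * m) = X ^ (2 * m) * ((1 - X ^ (2 * m)) * u 2) := by
      rw [geom_eq 2 m (by norm_num), mul_sum]
      apply sum_congr rfl
      intro i _
      rw [← pow_add]
      congr 1
      ring
    rw [h1]
    rcases Nat.eq_zero_or_pos m with h | h
    · subst h
      simp [G]
    · unfold G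
      have h := u_mul (2 * 2) (by omega)
      have h1 : (X : ℚ⟦X⟧) ^ (2 * (m + 1)) = X ^ (2 * (m - 1)) * X ^ 4 := by
        rw [← pow_add]
        congr 1
        omega
      have h2 : (X : ℚ⟦X⟧) ^ (2 * m) = X ^ (2 * (m - 1)) * X ^ 2 := by
        rw [← pow_add]
        congr 1
        omega
      rw [h1, show m + 1 - 1 = m by omega]
      rw [show 2 * 2 = 4 by norm_num] at h ⊢
      linear_combination (-((X : ℚ⟦X⟧) ^ 2 * X ^ (2 * (m - 1)) * (1 - X ^ (2 * m)) * u 2)) * h +
        (1 - X ^ (2 * m)) * u 2 * h2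

theorem choose_pairs (P : ℕ → Prop) [DecidablePred P] (m : ℕ) :
    ∑ j ∈ range m, ∑ i ∈ range j, (if P i ∧ P j then 1 else 0) =
      (#{i ∈ range m | P i}).choose 2 := by
  induction m with
  | zero => simp
  | succ m ih =>
    rw [sum_range_succ, ih, range_add_one, filter_insert]
    by_cases h : P m
    · rw [if_pos h, card_insert_of_notMem (by simp), Nat.choose_succ_succ' _ 1, Nat.choose_one_right]
      simp only [h, and_true]
      rw [sum_boole, add_comm]
      rfl
    · rw [if_neg h]
      simp [h]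

theorem choose_ge (L n : ℕ) (lam : n.Partition)
    (hlam : ∀ x ∈ lam.parts, Odd x ∧ x ≤ 2 * L - 1) :
    (∑ j ∈ range (L - 2), ∑ i ∈ range j,
      if ({2 * i + 3, 2 * j + 3} : Multiset ℕ) ≤ lam.parts then 1 else 0) +
      (∑ i ∈ range (L - 1), if ({2 * i + 3, 1, 1} : Multiset ℕ) ≤ lam.parts then 1 else 0) ≤
      (h2 lam).choose 2 := by
  set P : ℕ → Prop := fun i => 2 * i + 3 ∈ lam.parts with hP
  set e : ℕ := if 2 ≤ lam.parts.count 1 then 1 else 0 with he
  set d := #(lam.parts.toFinset.filter (3 ≤ ·)) with hd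
  have h0 : d + e ≤ h2 lam := h2_odd lam fun x hx => (hlam x hx).1
  have hcd : ∀ m, #{i ∈ range m | P i} ≤ d := by
    intro m
    apply card_le_card_of_injOn (fun i => 2 * i + 3)
    · intro i hi
      simp only [coe_filter, Set.mem_ofPred_eq, mem_range] at hi
      simp only [coe_filter, Set.mem_ofPred_eq, Multiset.mem_toFinset]
      exact ⟨hi.2, by omega⟩
    · intro i _ j _ h
      simp only at h
      omega
  have h1 : (∑ j ∈ range (L - 2), ∑ i ∈ range j,
      if ({2 * i + 3, 2 * j + 3} : Multiset ℕ) ≤ lam.parts then 1 else 0) ≤ d.choose 2 := by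
    refine le_trans ?_ (Nat.choose_le_choose 2 (hcd (L - 2)))
    rw [← choose_pairs P]
    apply sum_le_sum
    intro j _
    apply sum_le_sum
    intro i _
    split_ifs with h1 h2
    · exact le_rfl
    · exfalso
      apply h2
      exact ⟨Multiset.mem_of_le h1 (by simp), Multiset.mem_of_le h1 (by simp)⟩
    · exact Nat.zero_le _
    · exact le_rfl
  have h2' : (∑ i ∈ range (L - 1), if ({2 * i + 3, 1, 1} : Multiset ℕ) ≤ lam.parts then 1 else 0) ≤
      e * d := by
    refine le_trans ?_ (Nat.mul_le_mul_left e (hcd (L - 1)))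
    rw [card_filter, mul_sum]
    apply sum_le_sum
    intro i _
    split_ifs with h1 h2
    · rw [mul_one, he, if_pos]
      have := Multiset.count_le_of_le 1 h1
      refine le_trans ?_ this
      rw [show ({2 * i + 3, 1, 1} : Multiset ℕ) = (2 * i + 3) ::ₘ 1 ::ₘ {1} by rfl]
      rw [Multiset.count_cons, Multiset.count_cons_self, Multiset.count_singleton_self]
      omega
    · exfalso
      apply h2
      exact Multiset.mem_of_le h1 (by simp)
    · exact Nat.zero_le _
    · exact Nat.zero_le _
  refine (Nat.add_le_add h1 h2').trans ((le_of_eq ?_).trans (Nat.choose_le_choose 2 h0))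
  rw [he]
  split_ifs
  · rw [Nat.choose_succ_succ' _ 1, Nat.choose_one_right]
    ring
  · ring

theorem A_ge (L n : ℕ) : coeff n (Q L * (X ^ 5 * ((1 - X ^ (2 * (L - 1))) * u 2) +
    X ^ 6 * (X ^ 2 * G 2 (L - 2)))) ≤ (A L n : ℚ) := by
  have h1 : A L n = ∑ lam : n.Partition with (∀ x ∈ lam.parts, Odd x ∧ x ≤ 2 * L - 1),
      (h2 lam).choose 2 := finsum_eq (fun lam : n.Partition => ∀ x ∈ lam.parts, Odd x ∧ x ≤ 2 * L - 1)
  have key : ∀ s : Multiset ℕ, (∀ x ∈ s, Odd x ∧ x ≤ 2 * L - 1) →
      ((∑ lam : n.Partition with (∀ x ∈ lam.parts, Odd x ∧ x ≤ 2 * L - 1),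
        if s ≤ lam.parts then 1 else 0 : ℕ) : ℚ) = coeff n (Q L * X ^ s.sum) := by
    intro s hs
    rw [sum_boole, filter_filter, Nat.cast_id, card_contain L n s hs, coeff_mul_X_pow']
    split_ifs with h
    · exact pr_eq L _
    · simp
  rw [h1]
  have h2 : ∑ lam : n.Partition with (∀ x ∈ lam.parts, Odd x ∧ x ≤ 2 * L - 1),
      ((∑ j ∈ range (L - 2), ∑ i ∈ range j,
      if ({2 * i + 3, 2 * j + 3} : Multiset ℕ) ≤ lam.parts then 1 else 0) +
      (∑ i ∈ range (L - 1), if ({2 * i + 3, 1, 1} : Multiset ℕ) ≤ lam.parts then 1 else 0)) ≤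
      ∑ lam : n.Partition with (∀ x ∈ lam.parts, Odd x ∧ x ≤ 2 * L - 1), (h2 lam).choose 2 := by
    apply sum_le_sum
    intro lam hlam
    rw [mem_filter] at hlam
    exact choose_ge L n lam hlam.2
  refine le_trans (le_of_eq ?_) (Nat.cast_le.2 h2)
  rw [sum_add_distrib, sum_comm (t := range (L - 1)), sum_comm (t := range (L - 2))]
  have h3 : ∀ j, ∑ lam : n.Partition with (∀ x ∈ lam.parts, Odd x ∧ x ≤ 2 * L - 1),
      (∑ i ∈ range j, if ({2 * i + 3, 2 * j + 3} : Multiset ℕ) ≤ lam.parts then 1 else 0) =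
      ∑ i ∈ range j, ∑ lam : n.Partition with (∀ x ∈ lam.parts, Odd x ∧ x ≤ 2 * L - 1),
        if ({2 * i + 3, 2 * j + 3} : Multiset ℕ) ≤ lam.parts then 1 else 0 := fun j => sum_comm
  simp only [h3]
  rw [mul_add, map_add, Nat.cast_add, add_comm]
  congr 1
  · rw [← sum_pairs, mul_sum, mul_sum, map_sum, Nat.cast_sum]
    apply sum_congr rfl
    intro j hj
    rw [mul_sum, mul_sum, map_sum, Nat.cast_sum]
    apply sum_congr rfl
    intro i hi
    rw [mem_range] at hi hj
    rw [key]
    · congr 2
      rw [← pow_add]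
      congr 1
      rw [Multiset.insert_eq_cons, Multiset.sum_cons, Multiset.sum_singleton]
      ring
    · intro x hx
      simp only [Multiset.insert_eq_cons, Multiset.mem_cons, Multiset.mem_singleton] at hx
      rcases hx with rfl | rfl
      · exact ⟨⟨i + 1, by ring⟩, by omega⟩
      · exact ⟨⟨j + 1, by ring⟩, by omega⟩
  · rw [geom_eq 2 _ (by norm_num), mul_sum, mul_sum, map_sum, Nat.cast_sum]
    apply sum_congr rfl
    intro i hi
    rw [mem_range] at hi
    rw [key]
    · congr 2
      rw [← pow_add]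
      congr 1
      simp only [Multiset.insert_eq_cons, Multiset.sum_cons, Multiset.sum_singleton]
      ring
    · intro x hx
      simp only [Multiset.insert_eq_cons, Multiset.mem_cons, Multiset.mem_singleton] at hx
      rcases hx with rfl | rfl | rfl
      · exact ⟨⟨i + 1, by ring⟩, by omega⟩
      · exact ⟨⟨0, by ring⟩, by omega⟩
      · exact ⟨⟨0, by ring⟩, by omega⟩

/-- **Theorem.** `B_L(n) ≤ A_L(n)` for all `L ≥ 1` and `n ≥ 0`. -/
theorem result : ∀ L : ℕ, 1 ≤ L → ∀ n : ℕ, B L n ≤ A L n := by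
  intro L hL n
  have hB := B_le L n
  rcases Nat.lt_or_ge L 4 with h | h
  · have hz : W L (fun k => (k.choose 2 : ℚ)) = 0 := by
      have hd : ∀ t, W t (fun k => ((k + 1).choose 2 : ℚ) - (k.choose 2 : ℚ)) =
          W t (fun k => (k : ℚ)) := by
        intro t
        congr 1
        funext k
        rw [Nat.choose_succ_succ' k 1]
        simp
      have w2 : W 2 (fun k => (k.choose 2 : ℚ)) = 0 := by
        rw [W_rec, W_one, hd, W_zero]
        simp
      interval_cases L
      · rw [W_one]; simp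
      · exact w2
      · rw [W_rec, w2, hd, W_one]
        simp
    rw [hz, map_zero] at hB
    have : B L n = 0 := by exact_mod_cast le_antisymm hB (Nat.cast_nonneg _)
    omega
  · have hA := A_ge L n
    rw [W_choose L h] at hB
    obtain ⟨m, rfl⟩ : ∃ m, L = m + 2 := ⟨L - 2, by omega⟩
    have hc := core m (by omega)
    have hc5 := ((Nn.Xpow 5).mul hc) n
    have e : X ^ 5 * (Q (m + 2) * ((1 - X ^ (2 * m + 2)) * u 2 + X ^ 3 * G 2 m) - X * G 1 m * D m) =
        Q (m + 2) * (X ^ 5 * ((1 - X ^ (2 * (m + 2 - 1))) * u 2) +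
          X ^ 6 * (X ^ 2 * G 2 (m + 2 - 2))) - X ^ 6 * G 1 (m + 2 - 2) * D (m + 2 - 2) := by
      rw [show m + 2 - 1 = m + 1 by omega, show m + 2 - 2 = m by omega,
        show 2 * (m + 1) = 2 * m + 2 by ring]
      ring
    rw [e, map_sub] at hc5
    have : (B (m + 2) n : ℚ) ≤ A (m + 2) n := by linarith
    exact_mod_cast this

end Pool.Agent.Results.MP_d17fc5_co.HookBias
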